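import Pool.Agent.H157.Cusp.Tangent
import Pool.Agent.H35.PegBr

/-! Inscribed squares in odd families of Jordan curves that consist of arcs with corners and cusps and
of arcs without any regularity that are similar in pairs. -/

set_option autoImplicit false

namespace Pool.Agent.Results.MP_5a3ebe_gt.CuspedArcs

/-- A parametrised Jordan curve: continuous, of period `1`, injective on `[0, 1)`. -/
def Jordan (c : ℝ → ℂ) : Prop :=
  Continuous c ∧ (∀ s, c (s + 1) = c s) ∧ Set.InjOn c (Set.Ico 0 1)

/-- The set contains the four vertices of a square. -/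
def HasSquare (C : Set ℂ) : Prop := ∃ z w : ℂ, w ≠ 0 ∧ z ∈ C ∧ z + w ∈ C ∧
  z + w + Complex.I * w ∈ C ∧ z + Complex.I * w ∈ C

/-- Near the parameter `s` all chords of the curve lie in one open quarter plane: for a suitable `w`
the product of `w` with `c y - c x` has `|Im| < Re` for all `x < y` close to `s`. -/
def Tame (c : ℝ → ℂ) (s : ℝ) : Prop := ∃ ρ > 0, ∃ w : ℂ, ∀ x y : ℝ, |x - s| < ρ → |y - s| < ρ →
  x < y → |(w * (c y - c x)).im| < (w * (c y - c x)).re

/-- The curve is locally monotone (in the sense of Stromquist) at the parameter `s`: near `s` all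
chords of the curve lie in one open half plane. -/
def LocMono (c : ℝ → ℂ) (s : ℝ) : Prop := ∃ ρ > 0, ∃ w : ℂ, ∀ x y : ℝ, |x - s| < ρ → |y - s| < ρ →
  x < y → 0 < (w * (c y - c x)).re

/-- The curve has a Lipschitz cusp at the parameter `s`: both branches that issue from `c s` are graphs
of functions over one and the same ray (the positive real axis after the multiplication with a
suitable `w`), with difference quotients smaller than `1 / 5`. -/
def LipCusp (c : ℝ → ℂ) (s : ℝ) : Prop := ∃ ρ > 0, ∃ w : ℂ,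
  (∀ x y, s ≤ x → x < y → y < s + ρ → 5 * |(w * (c y - c x)).im| < (w * (c y - c x)).re) ∧
  (∀ x y, s - ρ < x → x < y → y ≤ s → 5 * |(w * (c x - c y)).im| < (w * (c x - c y)).re)

/-- The curve has strict one-sided derivatives `v` (on the right) and `v'` (on the left) different
from `0` at the parameter `s`. The angle between them is arbitrary, so this allows all corners and
all cusps. -/
def OneSided (c : ℝ → ℂ) (s : ℝ) : Prop := ∃ v v' : ℂ, v ≠ 0 ∧ v' ≠ 0 ∧
  (∀ ε > 0, ∃ δ > 0, ∀ x y : ℝ, s ≤ x → x < y → y < s + δ →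
    ‖c y - c x - ((y - x : ℝ) : ℂ) * v‖ ≤ ε * (y - x)) ∧
  (∀ ε > 0, ∃ δ > 0, ∀ x y : ℝ, s - δ < x → x < y → y ≤ s →
    ‖c y - c x - ((y - x : ℝ) : ℂ) * v'‖ ≤ ε * (y - x))

/-- A similarity of the plane, of either orientation. -/
def Similarity (f : ℂ → ℂ) : Prop := ∃ u v : ℂ, u ≠ 0 ∧
  (f = (fun z => u * z + v) ∨ f = fun z => u * (starRingEnd ℂ) z + v)

/-- The arc over `[p, p']` of the curve `c`, prolonged at both ends, is mapped onto the arc over
`[q, q']` of the curve `c'`, prolonged at both ends, by a proper congruence of the plane that takes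
`c p` to `c' q` and `c p'` to `c' q'`. -/
def Moved (c c' : ℝ → ℂ) (p p' q q' : ℝ) : Prop := ∃ a b a' b' : ℝ, a < p ∧ p' < b ∧ b < a + 1 ∧
  a' < q ∧ q' < b' ∧ b' < a' + 1 ∧ ∃ u v : ℂ, ‖u‖ = 1 ∧
    (fun z => u * z + v) '' (c '' Set.Icc a b) = c' '' Set.Icc a' b' ∧ u * c p + v = c' q ∧
    u * c p' + v = c' q'

/-- The arc over `[p, p']` of the curve `c`, prolonged at both ends, is mapped onto the arc over
`[q, q']` of the curve `c'`, prolonged at both ends, by an opposite congruence of the plane that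
takes `c p` to `c' q'` and `c p'` to `c' q`. -/
def Reflected (c c' : ℝ → ℂ) (p p' q q' : ℝ) : Prop := ∃ a b a' b' : ℝ, a < p ∧ p' < b ∧
  b < a + 1 ∧ a' < q ∧ q' < b' ∧ b' < a' + 1 ∧ ∃ u v : ℂ, ‖u‖ = 1 ∧
    (fun z => u * (starRingEnd ℂ) z + v) '' (c '' Set.Icc a b) = c' '' Set.Icc a' b' ∧
    u * (starRingEnd ℂ) (c p) + v = c' q' ∧ u * (starRingEnd ℂ) (c p') + v = c' q

/-- Let `c 0, ..., c (N - 1)` be an odd number of Jordan curves. Let the curve `c k` be divided into
`n k ≥ 2` arcs by the points `c k (p k 0), ..., c k (p k (n k)) = c k (p k 0)`, and let `σ` be an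
involution of the set of all the pairs `(k, i)` with `i < n k`. Suppose that each arc `(k, i)` is of one
of the following kinds:

(1) an arc with corners and cusps: its ends are tame, and each of its points is locally monotone or a
Lipschitz cusp or a point where the curve has strict one-sided derivatives different from `0`;
(2) its ends and those of the arc `σ (k, i)` are tame and it is mapped onto the arc `σ (k, i)` by a
similarity, which exchanges its ends if `σ (k, i) = (k, i)`;
(3) `σ (k, i) ≠ (k, i)` and it is mapped onto the arc `σ (k, i)` by a proper congruence which keeps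
the directions of the curves and maps also some prolongation of the arc `(k, i)` at both ends onto
one of the arc `σ (k, i)`;
(4) it is mapped onto the arc `σ (k, i)` (possibly `σ (k, i) = (k, i)`) by an opposite congruence
which reverses the directions of the curves and maps also some prolongation of the arc `(k, i)` at
both ends onto one of the arc `σ (k, i)`.

There is no regularity assumption on the arcs of the kinds (2), (3), (4), apart from the ends in (2).
Then one of the curves contains the four vertices of a square. -/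
theorem result (N : ℕ) (hN : Odd N) (c : Fin N → ℝ → ℂ) (hc : ∀ k, Jordan (c k)) (n : Fin N → ℕ)
    (hn : ∀ k, 2 ≤ n k) (p : Fin N → ℕ → ℝ) (hp : ∀ k, ∀ i < n k, p k i < p k (i + 1))
    (hpn : ∀ k, p k (n k) = p k 0 + 1) (σ : Fin N × ℕ → Fin N × ℕ)
    (hσ : ∀ k, ∀ i < n k, (σ (k, i)).2 < n (σ (k, i)).1 ∧ σ (σ (k, i)) = (k, i))
    (H : ∀ k, ∀ i < n k,
      (Tame (c k) (p k i) ∧ Tame (c k) (p k (i + 1)) ∧
        ∀ s ∈ Set.Icc (p k i) (p k (i + 1)),
          LocMono (c k) s ∨ LipCusp (c k) s ∨ OneSided (c k) s) ∨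
      (Tame (c k) (p k i) ∧ Tame (c k) (p k (i + 1)) ∧
        Tame (c (σ (k, i)).1) (p (σ (k, i)).1 (σ (k, i)).2) ∧
        Tame (c (σ (k, i)).1) (p (σ (k, i)).1 ((σ (k, i)).2 + 1)) ∧
        ∃ f, Similarity f ∧ f '' (c k '' Set.Icc (p k i) (p k (i + 1))) =
          c (σ (k, i)).1 '' Set.Icc (p (σ (k, i)).1 (σ (k, i)).2)
            (p (σ (k, i)).1 ((σ (k, i)).2 + 1)) ∧
          (σ (k, i) = (k, i) → f (c k (p k i)) = c k (p k (i + 1)))) ∨
      (σ (k, i) ≠ (k, i) ∧ Moved (c k) (c (σ (k, i)).1) (p k i) (p k (i + 1))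
        (p (σ (k, i)).1 (σ (k, i)).2) (p (σ (k, i)).1 ((σ (k, i)).2 + 1))) ∨
      Reflected (c k) (c (σ (k, i)).1) (p k i) (p k (i + 1))
        (p (σ (k, i)).1 (σ (k, i)).2) (p (σ (k, i)).1 ((σ (k, i)).2 + 1))) :
    ∃ k, HasSquare (Set.range (c k)) := by
  classical
  by_contra hno
  push Not at hno
  have L : ∀ k, Pool.Agent.H763R2.An.Loop (c k) := fun k => ⟨(hc k).1, (hc k).2.1⟩
  have J : ∀ k, Pool.Agent.H763R2.An.Inj (c k) := fun k =>
    Pool.Agent.H765R3.Peg.inj_of (L k) (hc k).2.2
  obtain ⟨X, hX⟩ := Pool.Agent.H35.PegCol.universal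
  have hk := fun k => hX (c k) (L k) (J k) (hno k)
  -- the division points
  have mono : ∀ k i j, i < j → j ≤ n k → p k i < p k j := by
    intro k i j hij hj
    induction j with
    | zero => omega
    | succ j ih =>
      rcases Nat.lt_succ_iff_lt_or_eq.1 hij with h | h
      · exact (ih h (by omega)).trans (hp k j (by omega))
      · rw [h]; exact hp k j (by omega)
  have ar : ∀ k, ∀ i < n k, Tame (c k) (p k i) → Tame (c k) (p k (i + 1)) →
      Pool.Agent.Y535.PEG.AR (c k) (p k i) (p k (i + 1)) := by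
    intro k i hi t1 t2
    refine ⟨hp k i hi, ?_, t1, t2⟩
    have := hn k
    rcases Nat.eq_zero_or_pos i with h | h
    · subst h
      have := mono k (0 + 1) (n k) (by omega) le_rfl
      rw [hpn k] at this
      exact this
    · have h1 := mono k 0 i h hi.le
      rcases (Nat.succ_le_of_lt hi).lt_or_eq with h2 | h2
      · have := mono k (i + 1) (n k) h2 le_rfl
        rw [hpn k] at this
        linarith
      · have e : i + 1 = n k := h2
        rw [e, hpn k]
        linarith
  -- the change along an arc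
  obtain ⟨F, hF⟩ : ∃ F : Fin N × ℕ → ZMod 2, ∀ q, F q =
      X (c q.1) (p q.1 (q.2 + 1)) - X (c q.1) (p q.1 q.2) := ⟨fun q => _, fun q => rfl⟩
  have one : ∀ k, ∀ i < n k, F (k, i) = 0 ∨
      (F (σ (k, i)) = F (k, i) ∧ (σ (k, i) = (k, i) → F (k, i) = 0)) := by
    intro k i hi
    obtain ⟨h1, h2⟩ := hσ k i hi
    obtain ⟨-, hm, h5, h7, h8, h9⟩ := hk k
    obtain ⟨hd2, hm2, h10⟩ := h9 (c (σ (k, i)).1) (L _) (J _) (hno _)
    rcases H k i hi with ⟨t1, t2, h⟩ | ⟨t1, t2, t3, t4, f, f1, f2, f3⟩ | ⟨hne, h⟩ | h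
    · left
      obtain ⟨z0, hz⟩ := Pool.Agent.TH569.Peg.exists_pos (L k) (J k) (hno k)
      have A := ar k i hi t1 t2
      rw [hF]
      refine sub_eq_zero.2 (Pool.Agent.H157.Cusp.arc_cusp (L k) (J k) (hno k) hz h5 h8 A.ha A.ab
        A.ba A.hb fun s hs => ?_)
      rcases h s hs with h | h | h
      · exact Or.inl h
      · exact Or.inr h
      · exact Pool.Agent.H157.Cusp.Tan.cases h
    · right
      constructor
      · rw [hF, hF]
        exact h10 _ _ _ _ (ar k i hi t1 t2) (ar _ _ h1 t3 t4) ⟨f, f1, f2⟩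
      · intro he
        rw [hF]
        rw [he] at f2
        exact sub_eq_zero.2 (h7 _ _ (ar k i hi t1 t2) ⟨f, f1, f2, f3 he⟩)
    · right
      refine ⟨?_, fun he => absurd he hne⟩
      rw [hF, hF]
      exact hd2 _ _ _ _ (hp k i hi) (hp _ _ h1) h
    · right
      constructor
      · rw [hF, hF]
        exact hm2 _ _ _ _ (hp k i hi) (hp _ _ h1) h
      · intro he
        rw [hF]
        rw [he] at h
        exact sub_eq_zero.2 (hm _ _ (hp k i hi) h)
  have pair : ∀ k, ∀ i < n k, F (k, i) + F (σ (k, i)) = 0 ∧ (F (k, i) ≠ 0 → σ (k, i) ≠ (k, i)) := by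
    intro k i hi
    have two : ∀ a : ZMod 2, a + a = 0 := by decide
    obtain ⟨h1, h2⟩ := hσ k i hi
    rcases one k i hi with h | ⟨h, h'⟩
    · refine ⟨?_, fun hne => absurd h hne⟩
      rcases one _ _ h1 with h3 | ⟨h3, -⟩
      · rw [Prod.mk.eta] at h3
        rw [h, h3, add_zero]
      · rw [Prod.mk.eta, h2] at h3
        rw [← h3, two]
    · rw [h]
      exact ⟨two _, fun hne he => hne (h' he)⟩
  -- the total change
  have tot : ∀ k, ∑ i ∈ Finset.range (n k), F (k, i) = 1 := by
    intro k
    have e : ∀ i ∈ Finset.range (n k), F (k, i) = X (c k) (p k (i + 1)) - X (c k) (p k i) :=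
      fun i _ => hF _
    rw [Finset.sum_congr rfl e, Finset.sum_range_sub (fun i => X (c k) (p k i)), hpn k, (hk k).1]
    ring
  have sum0 : ∑ q ∈ (Finset.univ : Finset (Fin N)).sigma (fun k => Finset.range (n k)),
      F (q.1, q.2) = 0 := by
    refine Finset.sum_involution (fun q _ => ⟨(σ (q.1, q.2)).1, (σ (q.1, q.2)).2⟩) ?_ ?_ ?_ ?_
    · intro q hq
      have hi : q.2 < n q.1 := Finset.mem_range.1 (Finset.mem_sigma.1 hq).2
      exact (pair q.1 q.2 hi).1
    · intro q hq hne he
      have hi : q.2 < n q.1 := Finset.mem_range.1 (Finset.mem_sigma.1 hq).2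
      refine (pair q.1 q.2 hi).2 hne ?_
      have e1 := congrArg Sigma.fst he
      have e2 := congrArg (fun q : (_ : Fin N) × ℕ => q.2) he
      exact Prod.ext e1 e2
    · intro q hq
      have hi : q.2 < n q.1 := Finset.mem_range.1 (Finset.mem_sigma.1 hq).2
      exact Finset.mem_sigma.2 ⟨Finset.mem_univ _, Finset.mem_range.2 (hσ q.1 q.2 hi).1⟩
    · intro q hq
      have hi : q.2 < n q.1 := Finset.mem_range.1 (Finset.mem_sigma.1 hq).2
      have e := (hσ q.1 q.2 hi).2
      simp only [Prod.mk.eta]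
      rw [e]
  rw [Finset.sum_sigma, Finset.sum_congr rfl (fun k _ => tot k), Finset.sum_const, Finset.card_univ,
    Fintype.card_fin, nsmul_eq_mul, mul_one] at sum0
  have : ((N : ℕ) : ZMod 2) = 1 := (ZMod.natCast_eq_one_iff_odd).2 hN
  rw [this] at sum0
  exact one_ne_zero sum0

end Pool.Agent.Results.MP_5a3ebe_gt.CuspedArcs
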