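import Pool.Agent.V11208.NA.Core

/-!
# Inscribed squares in nearly axially symmetric Jordan curves

Without any regularity: a quantitative robust form of the theorem that Jordan curves which are
symmetric about a line have inscribed squares.
-/

set_option autoImplicit false

namespace Pool.Agent.Results.MP_5a3ebe_gt.NearlyAxial

open Set Metric
open scoped ComplexConjugate

/-- Let `C` be a Jordan curve parametrised by `c : ℝ → ℂ` of period `1`, let
`z ↦ p + v ^ 2 * conj (z - p)` (`|v| = 1`) be the reflection in the line `p + ℝ v`, the axis, and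
let `η` be a bound for the distances of `c (σ - t)` to the mirror images of the `c t` (so `C` is
symmetric about the axis up to `η`). Let `s ↦ (x s, y s)` be a path of chords, `x < y < x + 1`, from
a chord with `x 0 + y 0 = σ` to a chord with `x 1 + y 1 = σ + 1`, each of these two end chords
having an end point which is a point of `C` at maximal distance from the axis. If for every chord of
the path at least one of the two other vertices of the square erected to the left of it has a
distance greater than `(2 + √2) η` from `C`, then `C` contains the four vertices of a square. -/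
theorem result (c : ℝ → ℂ) (hc : Continuous c) (hper : ∀ t, c (t + 1) = c t)
    (hinj : InjOn c (Ico 0 1)) (p v : ℂ) (hv : ‖v‖ = 1) (σ η : ℝ)
    (hsym : ∀ t, ‖c (σ - t) - (p + v ^ 2 * conj (c t - p))‖ ≤ η)
    (x y : ℝ → ℝ) (hx : ContinuousOn x (Icc 0 1)) (hy : ContinuousOn y (Icc 0 1))
    (hxy : ∀ s ∈ Icc (0 : ℝ) 1, x s < y s ∧ y s < x s + 1)
    (h0 : x 0 + y 0 = σ) (h1 : x 1 + y 1 = σ + 1)
    (hend : ∀ s ∈ ({0, 1} : Set ℝ), ∃ u ∈ ({x s, y s} : Set ℝ),
      ∀ t, |(conj v * (c t - p)).im| ≤ |(conj v * (c u - p)).im|)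
    (hfar : ∀ s ∈ Icc (0 : ℝ) 1, (2 + √2) * η <
      max (infDist (c (x s) + Complex.I * (c (y s) - c (x s))) (range c))
        (infDist (c (y s) + Complex.I * (c (y s) - c (x s))) (range c))) :
    ∃ z w : ℂ, w ≠ 0 ∧ z ∈ range c ∧ z + w ∈ range c ∧
      z + w + Complex.I * w ∈ range c ∧ z + Complex.I * w ∈ range c := by
  by_contra hcon
  have hvv : v * conj v = 1 := by
    rw [Complex.mul_conj, Complex.normSq_eq_norm_sq, hv]; norm_num
  have hvv' : conj v * v = 1 := by rw [mul_comm]; exact hvv
  have v0 : v ≠ 0 := by intro h; rw [h] at hv; simp at hv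
  obtain ⟨q, hq⟩ : ∃ q : ℝ → ℂ, q = fun t => conj v * (c (t + σ / 2) - p) := ⟨_, rfl⟩
  have hT : ∀ z : ℂ, v * (conj v * (z - p)) + p = z := fun z => by
    rw [← mul_assoc, hvv]; ring
  have hiso : Isometry (fun z : ℂ => conj v * (z - p)) := Isometry.of_dist_eq fun a b => by
    rw [dist_eq_norm, dist_eq_norm, show conj v * (a - p) - conj v * (b - p) = conj v * (a - b) by
      ring, norm_mul, RCLike.norm_conj, hv, one_mul]
  have hr : range q = (fun z : ℂ => conj v * (z - p)) '' range c := by
    rw [hq]
    apply Subset.antisymm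
    · rintro _ ⟨t, rfl⟩; exact ⟨_, mem_range_self _, rfl⟩
    · rintro _ ⟨_, ⟨t, rfl⟩, rfl⟩; exact ⟨t - σ / 2, by simp⟩
  have hd : ∀ z : ℂ, infDist (conj v * (z - p)) (range q) = infDist z (range c) := fun z => by
    rw [hr]; exact Metric.infDist_image (x := z) (t := range c) hiso
  have L : Pool.Agent.H763R2.An.Loop q := by
    refine ⟨by rw [hq]; fun_prop, fun t => ?_⟩
    rw [hq]
    simp only
    rw [show t + 1 + σ / 2 = t + σ / 2 + 1 by ring, hper]
  have J0 := Pool.Agent.H834Q.inj_of hper hinj
  have J : Pool.Agent.H763R2.An.Inj q := by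
    intro a b hab hb h
    rw [hq] at h
    simp only at h
    have h' := congrArg (fun z => v * z + p) h
    simp only [hT] at h'
    exact J0 (a + σ / 2) (b + σ / 2) (by linarith) (by linarith) h'
  have hs : ∀ t, ‖q (-t) - conj (q t)‖ ≤ η := by
    intro t
    have h2 := hsym (t + σ / 2)
    have e : q (-t) - conj (q t) =
        conj v * (c (σ - (t + σ / 2)) - (p + v ^ 2 * conj (c (t + σ / 2) - p))) := by
      rw [hq]
      simp only [map_mul, Complex.conj_conj]
      rw [show -t + σ / 2 = σ - (t + σ / 2) by ring]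
      linear_combination (v * conj (c (t + σ / 2) - p)) * hvv'
    rw [e, norm_mul, RCLike.norm_conj, hv, one_mul]
    exact h2
  have hqe : ∀ t, q (t - σ / 2) = conj v * (c t - p) := fun t => by rw [hq]; simp
  have hmax : ∀ s ∈ ({0, 1} : Set ℝ), (∀ t, |(q t).im| ≤ |(q (x s - σ / 2)).im|) ∨
      (∀ t, |(q t).im| ≤ |(q (y s - σ / 2)).im|) := by
    intro s hs'
    obtain ⟨u, hu, hm⟩ := hend s hs'
    have key : ∀ t, |(q t).im| ≤ |(q (u - σ / 2)).im| := fun t => by
      have := hm (t + σ / 2)
      rw [hqe]
      rw [hq]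
      exact this
    rcases hu with hu | hu
    · left; rw [← hu]; exact key
    · right
      rw [mem_singleton_iff] at hu
      rw [← hu]; exact key
  refine Pool.Agent.V11208.NA.main L J hs (x := fun s => x s - σ / 2)
    (y := fun s => y s - σ / 2) (hx.sub continuousOn_const) (hy.sub continuousOn_const)
    (fun s hs' => ⟨by linarith [(hxy s hs').1], by linarith [(hxy s hs').2]⟩)
    (by linarith) (by linarith) (hmax 0 (by simp)) (hmax 1 (by simp))
    (fun s hs' => ?_) ?_
  · have eD : Pool.Agent.H763R2.Sq.Dv (q (x s - σ / 2)) (q (y s - σ / 2)) =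
        conj v * ((c (x s) + Complex.I * (c (y s) - c (x s))) - p) := by
      rw [hqe, hqe]; unfold Pool.Agent.H763R2.Sq.Dv; ring
    have eC : Pool.Agent.H763R2.Sq.Cv (q (x s - σ / 2)) (q (y s - σ / 2)) =
        conj v * ((c (y s) + Complex.I * (c (y s) - c (x s))) - p) := by
      rw [hqe, hqe]; unfold Pool.Agent.H763R2.Sq.Cv; ring
    rw [eD, eC, hd, hd]
    exact hfar s hs'
  · rintro ⟨z, w, g1, g2, g3, g4, g5⟩
    have hm : ∀ u : ℂ, u ∈ range q → v * u + p ∈ range c := by
      intro u hu
      rw [hr] at hu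
      obtain ⟨z, hz, rfl⟩ := hu
      simp only
      rw [hT]
      exact hz
    refine hcon ⟨v * z + p, v * w, mul_ne_zero v0 g1, hm _ g2, ?_, ?_, ?_⟩
    · rw [show v * z + p + v * w = v * (z + w) + p by ring]; exact hm _ g3
    · rw [show v * z + p + v * w + Complex.I * (v * w) = v * (z + w + Complex.I * w) + p by ring]
      exact hm _ g4
    · rw [show v * z + p + Complex.I * (v * w) = v * (z + Complex.I * w) + p by ring]
      exact hm _ g5

end Pool.Agent.Results.MP_5a3ebe_gt.NearlyAxial
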