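import Pool.Agent.H35.PegBr
import Pool.Agent.H35.OddCov

/-! Inscribed squares in one of finitely many Jordan curves an odd number of which are covered an odd
number of times by overlapping arcs that are neutral or paired. Neutral arcs may contain infinitely
many points that are not locally monotone. -/

set_option autoImplicit false

namespace Pool.Agent.Results.MP_5a3ebe_gt.OverlappingArcs

/-- A parametrised Jordan curve: continuous, of period `1`, injective on `[0, 1)`. -/
def Jordan (c : ℝ → ℂ) : Prop :=
  Continuous c ∧ (∀ s, c (s + 1) = c s) ∧ Set.InjOn c (Set.Ico 0 1)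

/-- The set contains the four vertices of a square. -/
def HasSquare (C : Set ℂ) : Prop := ∃ z w : ℂ, w ≠ 0 ∧ z ∈ C ∧ z + w ∈ C ∧
  z + w + Complex.I * w ∈ C ∧ z + Complex.I * w ∈ C

/-- Near the parameter `s` all chords of the curve lie in one open quarter plane: for a suitable `w`
the product of `w` with `c y - c x` has `|Im| < Re` for all `x < y` close to `s`. -/
def Tame (c : ℝ → ℂ) (s : ℝ) : Prop := ∃ ρ > 0, ∃ w : ℂ, ∀ x y : ℝ, |x - s| < ρ → |y - s| < ρ →
  x < y → |(w * (c y - c x)).im| < (w * (c y - c x)).re

/-- The curve is locally monotone (in the sense of Stromquist) at the parameter `s`: near `s` all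
chords of the curve lie in one open half plane. -/
def LocMono (c : ℝ → ℂ) (s : ℝ) : Prop := ∃ ρ > 0, ∃ w : ℂ, ∀ x y : ℝ, |x - s| < ρ → |y - s| < ρ →
  x < y → 0 < (w * (c y - c x)).re

/-- A similarity of the plane, of either orientation. -/
def Similarity (f : ℂ → ℂ) : Prop := ∃ u v : ℂ, u ≠ 0 ∧
  (f = (fun z => u * z + v) ∨ f = fun z => u * (starRingEnd ℂ) z + v)

/-- The arc over `[p, p']` of the curve `c`, prolonged at both ends, is mapped onto the arc over
`[q, q']` of the curve `c'`, prolonged at both ends, by a proper congruence of the plane that takes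
`c p` to `c' q` and `c p'` to `c' q'`. -/
def Moved (c c' : ℝ → ℂ) (p p' q q' : ℝ) : Prop := ∃ a b a' b' : ℝ, a < p ∧ p' < b ∧ b < a + 1 ∧
  a' < q ∧ q' < b' ∧ b' < a' + 1 ∧ ∃ u v : ℂ, ‖u‖ = 1 ∧
    (fun z => u * z + v) '' (c '' Set.Icc a b) = c' '' Set.Icc a' b' ∧ u * c p + v = c' q ∧
    u * c p' + v = c' q'

/-- The arc over `[p, p']` of the curve `c`, prolonged at both ends, is mapped onto the arc over
`[q, q']` of the curve `c'`, prolonged at both ends, by an opposite congruence of the plane that
takes `c p` to `c' q'` and `c p'` to `c' q`. -/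
def Reflected (c c' : ℝ → ℂ) (p p' q q' : ℝ) : Prop := ∃ a b a' b' : ℝ, a < p ∧ p' < b ∧
  b < a + 1 ∧ a' < q ∧ q' < b' ∧ b' < a' + 1 ∧ ∃ u v : ℂ, ‖u‖ = 1 ∧
    (fun z => u * (starRingEnd ℂ) z + v) '' (c '' Set.Icc a b) = c' '' Set.Icc a' b' ∧
    u * (starRingEnd ℂ) (c p) + v = c' q' ∧ u * (starRingEnd ℂ) (c p') + v = c' q

open Classical in
/-- The signed distance of `z` to the closed curve `c` (of period `1`): the distance of `z` to the
curve if the curve winds an odd number `n` of times around `z` (there is a continuous logarithm `k`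
of `c - z` with `k 1 - k 0 = 2 π n i`), and minus the distance otherwise. For a Jordan curve it is
positive inside, zero on the curve and negative outside. -/
noncomputable def sdist (c : ℝ → ℂ) (z : ℂ) : ℝ :=
  if ∃ n : ℤ, (∃ k : ℝ → ℂ, Continuous k ∧ (∀ t, Complex.exp (k t) = c t - z) ∧
      k 1 - k 0 = n * (2 * Real.pi * Complex.I)) ∧ Odd n
  then Metric.infDist z (Set.range c) else -Metric.infDist z (Set.range c)

/-- The arc over `[p, p']`, from `P = c p` to `Q = c p'`, satisfies the staircase condition: for one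
of its two sides (`ε = ± i`) and one sign `σ = ± 1` (inside or outside of the curve),
* for all points `Z` of the arc close to `P` the square erected on `P Z` on this side has its
  vertex next to `P` strictly on the side `σ` of the curve;
* for all points `Z ≠ P` of the arc the square on `P Z` has its vertex next to `P` strictly on the side
  `σ` of the curve or its vertex next to `Z` strictly on the other side of the curve;
* for all points `Z ≠ Q` of the arc the square on `Z Q` has its vertex next to `Q` strictly on the side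
  `σ` of the curve or its vertex next to `Z` strictly on the other side of the curve;
* the square on `P Q` has both its other vertices strictly on the side `σ` of the curve.
For instance this holds if the arc stays inside the curve, apart from the fixed points `P` and `Q`,
when it is turned by a right angle about `P` (towards the inside), and by a right angle in
the opposite direction about `Q`. -/
def Staircase (c : ℝ → ℂ) (p p' : ℝ) : Prop := ∃ (ε : ℂ) (σ : ℝ),
  (ε = Complex.I ∨ ε = -Complex.I) ∧ (σ = 1 ∨ σ = -1) ∧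
  (∃ δ > 0, ∀ y ∈ Set.Ioo p (p + δ), 0 < σ * sdist c (c p + ε * (c y - c p))) ∧
  (∀ y ∈ Set.Ioc p p', 0 < σ * sdist c (c p + ε * (c y - c p)) ∨
    σ * sdist c (c y + ε * (c y - c p)) < 0) ∧
  (∀ x ∈ Set.Ico p p', 0 < σ * sdist c (c p' + ε * (c p' - c x)) ∨
    σ * sdist c (c x + ε * (c p' - c x)) < 0) ∧
  0 < σ * sdist c (c p + ε * (c p' - c p)) ∧ 0 < σ * sdist c (c p' + ε * (c p' - c p))

/-- The point `c s` is a centre of local symmetry: some arc of the curve around it is mapped onto itself
by a congruence of the plane, of either orientation, that exchanges the ends of the arc and fixes the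
point (so by the reflection in a line through the point or by the half turn about it). -/
def LocSym (c : ℝ → ℂ) (s : ℝ) : Prop := ∃ p p' : ℝ, p < s ∧ s < p' ∧ p' < p + 1 ∧
  ∃ (u v : ℂ) (f : ℂ → ℂ), ‖u‖ = 1 ∧
    (f = (fun z => u * z + v) ∨ f = fun z => u * (starRingEnd ℂ) z + v) ∧
    f '' (c '' Set.Icc p p') = c '' Set.Icc p p' ∧ f (c p) = c p' ∧ f (c s) = c s

/-- The point `c s` is bridged: the curve is locally monotone for a while after this point, and there
are arbitrarily short arcs around the point with tame ends that satisfy the staircase condition. -/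
def Bridged (c : ℝ → ℂ) (s : ℝ) : Prop := (∃ δ > 0, ∀ r ∈ Set.Ioo s (s + δ), LocMono c r) ∧
  ∀ η > 0, ∃ x ∈ Set.Ioo (s - η) s, ∃ y ∈ Set.Ioo s (s + η),
    Tame c x ∧ Tame c y ∧ Staircase c x y

/-- The arc over `[p, p']` is neutral: it is reflected onto itself (with a prolongation); or its ends
are tame and
(a) it is locally monotone at all its points, or
(b) tame points are dense in it and each of its points is locally monotone, a centre of local
symmetry or bridged, or
(c) it is mapped onto itself by a similarity of either orientation that exchanges its ends, or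
(d) it satisfies the staircase condition. -/
def Neutral (c : ℝ → ℂ) (p p' : ℝ) : Prop := Reflected c c p p' p p' ∨
  (Tame c p ∧ Tame c p' ∧ ((∀ s ∈ Set.Icc p p', LocMono c s) ∨
    ((∀ u v, p ≤ u → u < v → v ≤ p' → ∃ q ∈ Set.Ioo u v, Tame c q) ∧
      ∀ s ∈ Set.Icc p p', LocMono c s ∨ LocSym c s ∨ Bridged c s) ∨
    (∃ f, Similarity f ∧ f '' (c '' Set.Icc p p') = c '' Set.Icc p p' ∧ f (c p) = c p') ∨
    Staircase c p p'))

/-- The arc over `[p, p']` of `c` and the arc over `[q, q']` of `c'` are partners: `Moved` or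
`Reflected` onto each other, or similar (by a similarity of either orientation, in either direction)
with tame ends. -/
def Partners (c c' : ℝ → ℂ) (p p' q q' : ℝ) : Prop :=
  Moved c c' p p' q q' ∨ Reflected c c' p p' q q' ∨
  (Tame c p ∧ Tame c p' ∧ Tame c' q ∧ Tame c' q' ∧
    ∃ f, Similarity f ∧ f '' (c '' Set.Icc p p') = c' '' Set.Icc q q')

/-- Let `c 0, ..., c (N - 1)` be Jordan curves and `A 0, ..., A (M - 1)` finitely many arcs of these
curves, which may overlap: `A m` is the arc over `[p m, p' m]`, `p m < p' m < p m + 1`, of the curve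
`c (κ m)`. Suppose that for the indices `k` of a set `O` with an odd number of elements each point of
the curve `c k` that is not an end of one of the arcs lies in an odd number of the arcs of this
curve, and for the other indices `k` in an even number. Let `σ` be an involution of the indices of the
arcs such that each `A m` is neutral or is a partner of `A (σ m)` with `σ m ≠ m`. Then one of the
curves contains the four vertices of a square.

For instance, a Jordan curve `C` contains the vertices of a square
* if each of its points, finitely many excepted, lies in an odd number of finitely many given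
  neutral arcs of `C`;
* if the tame points are dense in `C` and each point of `C` is locally monotone or a centre of local
  symmetry (there may be infinitely many points where `C` is not locally monotone). -/
theorem result (N M : ℕ) (c : Fin N → ℝ → ℂ) (hc : ∀ k, Jordan (c k)) (κ : Fin M → Fin N)
    (p p' : Fin M → ℝ) (hp : ∀ m, p m < p' m ∧ p' m < p m + 1) (O : Finset (Fin N))
    (hO : Odd O.card)
    (hcov : ∀ k, ∀ s : ℝ, (∀ m, κ m = k → ∀ j : ℤ, s + j ≠ p m ∧ s + j ≠ p' m) →
      (Odd {m | κ m = k ∧ ∃ j : ℤ, p m < s + j ∧ s + j < p' m}.ncard ↔ k ∈ O))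
    (σ : Fin M → Fin M) (hσ : ∀ m, σ (σ m) = m)
    (H : ∀ m, Neutral (c (κ m)) (p m) (p' m) ∨ (σ m ≠ m ∧
      Partners (c (κ m)) (c (κ (σ m))) (p m) (p' m) (p (σ m)) (p' (σ m)))) :
    ∃ k, HasSquare (Set.range (c k)) := by
  have inj : ∀ c : ℝ → ℂ, Jordan c → Pool.Agent.H763R2.An.Inj c := by
    intro c hc x y hxy hy he
    have L : Pool.Agent.H763R2.An.Loop c := ⟨hc.1, hc.2.1⟩
    have e1 : c (Int.fract x) = c x := by
      have := L.per_int (Int.fract x) ⌊x⌋
      rw [Int.fract_add_floor] at this
      exact this.symm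
    have e2 : c (Int.fract y) = c y := by
      have := L.per_int (Int.fract y) ⌊y⌋
      rw [Int.fract_add_floor] at this
      exact this.symm
    have e3 := hc.2.2 ⟨Int.fract_nonneg x, Int.fract_lt_one x⟩
      ⟨Int.fract_nonneg y, Int.fract_lt_one y⟩ (by rw [e1, e2, he])
    obtain ⟨m, hm⟩ := Int.fract_eq_fract.1 e3
    have h1 : (m : ℝ) < 0 := by linarith
    have h2 : (-1 : ℝ) < m := by linarith
    have h3 : m < 0 := by exact_mod_cast h1
    have h4 : -1 < m := by exact_mod_cast h2
    omega
  have part1 : ∃ X : (ℝ → ℂ) → ℝ → ZMod 2, ∀ c, Jordan c → ¬ HasSquare (Set.range c) →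
      (∀ s, X c (s + 1) = X c s + 1) ∧
      (∀ p p', p < p' → p' < p + 1 → Neutral c p p' → X c p' = X c p) ∧
      ∀ c', Jordan c' → ¬ HasSquare (Set.range c') → ∀ p p' q q', p < p' → p' < p + 1 → q < q' →
        q' < q + 1 → Partners c c' p p' q q' → X c' q' - X c' q = X c p' - X c p := by
    obtain ⟨X, hX⟩ := Pool.Agent.H35.PegCol.universal
    refine ⟨X, fun c hc hs => ?_⟩
    obtain ⟨h1, h2, h3, h4, h5, h6⟩ := hX c ⟨hc.1, hc.2.1⟩ (inj c hc) hs
    refine ⟨h1, fun p p' hp hp' hn => ?_, fun c' hc' hs' p p' q q' hp hp' hq hq' hP => ?_⟩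
    · rcases hn with hn | ⟨t1, t2, hn | hn | hn | hn⟩
      · exact h2 p p' hp hn
      · exact h3 p p' ⟨hp, hp', t1, t2⟩ hn
      · exact Pool.Agent.H35.PegCol.arc_null2 ⟨hc.1, hc.2.1⟩ (inj c hc) h3 h4 h5 hp hp' t1 t2
          hn.1 hn.2
      · exact h4 p p' ⟨hp, hp', t1, t2⟩ hn
      · exact h5 p p' ⟨hp, hp', t1, t2⟩ hn
    · obtain ⟨g1, g2, g3⟩ := h6 c' ⟨hc'.1, hc'.2.1⟩ (inj c' hc') hs'
      rcases hP with hP | hP | ⟨t1, t2, t3, t4, hP⟩
      · exact g1 p p' q q' hp hq hP
      · exact g2 p p' q q' hp hq hP
      · exact g3 p p' q q' ⟨hp, hp', t1, t2⟩ ⟨hq, hq', t3, t4⟩ hP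
  classical
  by_contra hno
  push Not at hno
  obtain ⟨X, hX⟩ := part1
  have tot : ∑ m, (X (c (κ m)) (p' m) - X (c (κ m)) (p m)) = 1 := by
    rw [← Finset.sum_fiberwise_of_maps_to (s := Finset.univ) (t := Finset.univ) (g := κ)
      (fun _ _ => Finset.mem_univ _)]
    have e1 : ∀ k ∈ (Finset.univ : Finset (Fin N)),
        ∑ m ∈ Finset.univ with κ m = k, (X (c (κ m)) (p' m) - X (c (κ m)) (p m)) =
          if k ∈ O then 1 else 0 := by
      intro k _
      have e2 : ∑ m ∈ Finset.univ with κ m = k, (X (c (κ m)) (p' m) - X (c (κ m)) (p m)) =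
          ∑ m ∈ Finset.univ with κ m = k, (X (c k) (p' m) - X (c k) (p m)) := by
        refine Finset.sum_congr rfl fun m hm => ?_
        rw [(Finset.mem_filter.1 hm).2]
      rw [e2]
      refine Pool.Agent.H35.OddCov.cover_sum _ p p' (fun m _ => hp m) _ (fun s hs => ?_)
        (fun s => X (c k) s) (hX (c k) (hc k) (hno k)).1
      have h1 := hcov k s (fun m hm j => hs m (Finset.mem_filter.2 ⟨Finset.mem_univ _, hm⟩) j)
      have h2 : {m | κ m = k ∧ ∃ j : ℤ, p m < s + j ∧ s + j < p' m}.ncard =
          (((Finset.univ.filter fun m => κ m = k)).filter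
            (fun m => ∃ j : ℤ, p m < s + j ∧ s + j < p' m)).card := by
        rw [← Set.ncard_coe_finset]
        congr 1
        ext m
        simp
      rw [h2] at h1
      split_ifs with h
      · have h3 := h1.2 h
        have := Pool.Agent.Y535.PEG.z2_of_odd (m := (((Finset.univ.filter fun m => κ m = k).filter
            (fun m => ∃ j : ℤ, p m < s + j ∧ s + j < p' m)).card : ℤ)) (by exact_mod_cast h3)
        exact_mod_cast this
      · have h3 := Nat.not_odd_iff_even.1 (fun h' => h (h1.1 h'))
        have := Pool.Agent.Y535.PEG.z2_of_even (m := (((Finset.univ.filter fun m => κ m = k).filter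
            (fun m => ∃ j : ℤ, p m < s + j ∧ s + j < p' m)).card : ℤ)) (by exact_mod_cast h3)
        exact_mod_cast this
    rw [Finset.sum_congr rfl e1, Finset.sum_ite_mem, Finset.univ_inter, Finset.sum_const,
      nsmul_eq_mul, mul_one]
    have := Pool.Agent.Y535.PEG.z2_of_odd (m := (O.card : ℤ)) (by exact_mod_cast hO)
    exact_mod_cast this
  have one : ∀ m, (X (c (κ m)) (p' m) - X (c (κ m)) (p m) = 0) ∨ (σ m ≠ m ∧
      X (c (κ (σ m))) (p' (σ m)) - X (c (κ (σ m))) (p (σ m)) =
        X (c (κ m)) (p' m) - X (c (κ m)) (p m)) := by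
    intro m
    obtain ⟨-, k1, k2⟩ := hX (c (κ m)) (hc _) (hno _)
    rcases H m with h | ⟨hne, h⟩
    · left
      rw [k1 _ _ (hp m).1 (hp m).2 h, sub_self]
    · right
      exact ⟨hne, k2 _ (hc _) (hno _) _ _ _ _ (hp m).1 (hp m).2 (hp _).1 (hp _).2 h⟩
  have h2 : ∑ m, (X (c (κ m)) (p' m) - X (c (κ m)) (p m)) = 0 := by
    refine Finset.sum_involution (fun m _ => σ m) (fun m _ => ?_) (fun m _ hne => ?_)
      (fun m _ => Finset.mem_univ _) (fun m _ => hσ m)
    · have e : X (c (κ (σ m))) (p' (σ m)) - X (c (κ (σ m))) (p (σ m)) =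
          X (c (κ m)) (p' m) - X (c (κ m)) (p m) := by
        rcases one m with h | ⟨-, h⟩
        · rcases one (σ m) with h' | ⟨-, h'⟩
          · rw [h, h']
          · rw [hσ] at h'
            exact h'.symm
        · exact h
      rw [e]
      exact (Pool.Agent.Y535.PEG.zm2 _ 0).1
    · rcases one m with h | ⟨h, -⟩
      · exact absurd h hne
      · exact h
  rw [tot] at h2
  exact one_ne_zero h2

end Pool.Agent.Results.MP_5a3ebe_gt.OverlappingArcs
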