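import Pool.Agent.TH829.Peg.Sep
import Pool.Agent.H765R3.Peg.Conv

/-!
# Inscribed squares in Jordan curves which run around in a tube about a given closed curve

No regularity of the Jordan curve is assumed; the width of the tube is explicit and may vary.
-/

set_option autoImplicit false

namespace Pool.Agent.Results.MP_5a3ebe_gt.VariableTubes

open Set

/-- The curve `c` contains the four vertices of a square. -/
def HasSquare (c : ℝ → ℂ) : Prop :=
  ∃ z w : ℂ, w ≠ 0 ∧ z ∈ range c ∧ z + w ∈ range c ∧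
    z + w + Complex.I * w ∈ range c ∧ z + Complex.I * w ∈ range c

/-- `c` is a Jordan curve, parametrised with period `1`. -/
def Jordan (c : ℝ → ℂ) : Prop :=
  Continuous c ∧ (∀ t, c (t + 1) = c t) ∧ InjOn c (Ico 0 1)

/-- `c` runs around in the tube of radius `ε (s)` at `γ (s)` about the curve `γ` of period `L`:
`|c (t) - γ (f (t))| ≤ ε (f (t))` for some continuous `f` (not necessarily monotone) with
`f (t + 1) = f (t) + L`. -/
def RunsAround (L : ℝ) (γ : ℝ → ℂ) (ε : ℝ → ℝ) (c : ℝ → ℂ) : Prop :=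
  ∃ f : ℝ → ℝ, Continuous f ∧ (∀ t, f (t + 1) = f t + L) ∧ ∀ t, ‖c t - γ (f t)‖ ≤ ε (f t)

theorem one_sub_I : ‖(1 - Complex.I : ℂ)‖ = √2 := by
  rw [Complex.norm_def, Complex.normSq_apply]
  congr 1
  simp
  norm_num

theorem general (L : ℝ) (γ : ℝ → ℂ) (δ ε : ℝ → ℝ) (hδ : Continuous δ)
    (hδL : ∀ s, δ (s + L) = δ s) (h0 : ∀ s, 0 < δ s ∧ δ s < L)
    (hfar : ∀ s u, ε u + √2 * ε s + ε (s + δ s) <
      ‖γ u - (γ s + Complex.I * (γ (s + δ s) - γ s))‖)
    (c : ℝ → ℂ) (hc : Jordan c) (hr : RunsAround L γ ε c) : HasSquare c := by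
  obtain ⟨hcc, hper, hinj⟩ := hc
  obtain ⟨f, hf, hfL, hcl⟩ := hr
  by_contra hno
  have LL : H763R2.An.Loop c := ⟨hcc, hper⟩
  have J : H763R2.An.Inj c := H765R3.Peg.inj_of LL hinj
  obtain ⟨S, hS⟩ : ∃ S : Set (ℝ × ℝ), S = {p | f p.2 - f p.1 = δ (f p.1)} := ⟨_, rfl⟩
  have cF : Continuous fun p : ℝ × ℝ => f p.2 - f p.1 - δ (f p.1) := by fun_prop
  have hSc : IsClosed S := by rw [hS]; exact isClosed_eq (by fun_prop) (by fun_prop)
  obtain ⟨x, y, t, hx, hy, hm, ht, e1, -⟩ := TH829.Peg.crossing_sep LL J hno hSc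
    (fun x y => by
      rw [hS]
      show f (y + 1) - f (x + 1) = δ (f (x + 1)) ↔ f y - f x = δ (f x)
      rw [hfL, hfL, hδL, show f y + L - (f x + L) = f y - f x by ring])
    (fun x => by
      rw [hS]
      intro h
      change f x - f x = δ (f x) at h
      linarith [(h0 (f x)).1])
    (fun x => by
      rw [hS]
      intro h
      change f (x + 1) - f x = δ (f x) at h
      rw [hfL] at h
      linarith [(h0 (f x)).2])
    (fun x y hx hy hxy e0 e1 => by
      have cφ : ContinuousOn (fun s => f (y s) - f (x s) - δ (f (x s))) (Icc 0 1) :=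
        cF.comp_continuousOn (hx.prodMk hy)
      obtain ⟨s, hs, e⟩ := intermediate_value_Icc zero_le_one cφ
        (show (0:ℝ) ∈ Icc _ _ from ⟨by
          simp only [e0]
          linarith [(h0 (f (x 0))).1], by
          simp only [e1, hfL]
          linarith [(h0 (f (x 1))).2]⟩)
      refine ⟨s, hs, ?_⟩
      rw [hS]
      exact sub_eq_zero.1 e) (Real.pi / 2)
  rw [Real.cos_pi_div_two, mul_zero] at e1
  have hD : H763R2.An.DD c x y ∈ range c := ((H763R2.An.mgc_sg LL).zero LL).1 e1
  obtain ⟨u, hu⟩ := hD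
  rw [hS] at hm
  have hm' : f y = f x + δ (f x) := by
    have : f y - f x = δ (f x) := hm
    linarith
  have h1 := hcl u
  have h2 := hcl x
  have h3 := hcl y
  rw [hm'] at h3
  have key : γ (f u) - (γ (f x) + Complex.I * (γ (f x + δ (f x)) - γ (f x))) =
      -(c u - γ (f u)) + ((1 - Complex.I) * (c x - γ (f x)) +
        Complex.I * (c y - γ (f x + δ (f x)))) := by
    rw [hu]
    unfold H763R2.An.DD H763R2.Sq.Dv
    ring
  have hlt := hfar (f x) (f u)
  rw [key] at hlt
  have n1 := norm_add_le (-(c u - γ (f u))) ((1 - Complex.I) * (c x - γ (f x)) +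
    Complex.I * (c y - γ (f x + δ (f x))))
  have n2 := norm_add_le ((1 - Complex.I) * (c x - γ (f x)))
    (Complex.I * (c y - γ (f x + δ (f x))))
  rw [norm_mul, norm_mul, one_sub_I, Complex.norm_I, one_mul] at n2
  rw [norm_neg] at n1
  have n3 := mul_le_mul_of_nonneg_left h2 (Real.sqrt_nonneg 2)
  linarith

/-- Taylor's formula -/
theorem taylor {γ τ : ℝ → ℂ} {r : ℝ} (hr : 0 < r) (hγ : ∀ s, HasDerivAt γ (τ s) s)
    (hτ : ∀ s u, ‖τ s - τ u‖ ≤ |s - u| / r) (a : ℝ) {b : ℝ} (hb : 0 ≤ b) :
    ‖γ (a + b) - γ a - b * τ a‖ ≤ b ^ 2 / (2 * r) := by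
  have hg : ∀ x : ℝ, HasDerivAt (fun x : ℝ => γ (a + x) - γ a - (x : ℂ) * τ a)
      (τ (a + x) - τ a) x := by
    intro x
    have h1 : HasDerivAt (fun x : ℝ => γ (a + x)) (τ (a + x)) x :=
      HasDerivAt.comp_const_add a x (hγ (a + x))
    have h2 : HasDerivAt (fun x : ℝ => ((x : ℝ) : ℂ)) 1 x := Complex.ofRealCLM.hasDerivAt
    exact ((h1.sub_const (γ a)).sub (h2.mul_const (τ a))).congr_deriv (by simp)
  have hB : ∀ x : ℝ, HasDerivAt (fun x : ℝ => x ^ 2 / (2 * r)) (x / r) x := by
    intro x
    refine ((hasDerivAt_pow 2 x).div_const (2 * r)).congr_deriv ?_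
    norm_num
    field_simp
  have := image_norm_le_of_norm_deriv_right_le_deriv_boundary
    (f := fun x : ℝ => γ (a + x) - γ a - (x : ℂ) * τ a) (f' := fun x => τ (a + x) - τ a)
    (a := 0) (b := b) (B := fun x => x ^ 2 / (2 * r)) (B' := fun x => x / r)
    (fun x _ => (hg x).continuousAt.continuousWithinAt)
    (fun x _ => (hg x).hasDerivWithinAt)
    (by simp) hB (fun x hx => by
      have := hτ (a + x) a
      rw [show a + x - a = x by ring, abs_of_nonneg hx.1] at this
      exact this)
  exact this ⟨hb, le_rfl⟩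

theorem smooth (L r ε : ℝ) (hL : 0 < L) (hr : 0 < r) (hε : (4 + 2 * √2) * ε < r) (γ τ : ℝ → ℂ)
    (hγL : ∀ s, γ (s + L) = γ s) (hγ : ∀ s, HasDerivAt γ (τ s) s) (h1 : ∀ s, ‖τ s‖ = 1)
    (hτ : ∀ s u, ‖τ s - τ u‖ ≤ |s - u| / r)
    (hball : ∀ s u, r ≤ ‖γ u - (γ s + Complex.I * r * τ s)‖)
    (c : ℝ → ℂ) (hc : Jordan c) (hrun : RunsAround L γ (fun _ => ε) c) : HasSquare c := by
  have hLr : r < L := by
    have := taylor hr hγ hτ 0 hL.le
    rw [zero_add] at this
    have e : γ L = γ 0 := by have := hγL 0; rwa [zero_add] at this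
    rw [e, sub_self, zero_sub, norm_neg, norm_mul, h1, mul_one, Complex.norm_real,
      Real.norm_of_nonneg hL.le, le_div_iff₀ (by positivity)] at this
    nlinarith
  refine general L γ (fun _ => r) (fun _ => ε) continuous_const (fun _ => rfl)
    (fun _ => ⟨hr, hLr⟩) (fun s u => ?_) c hc hrun
  have ht := taylor hr hγ hτ s hr.le
  have hb := hball s u
  have e : γ u - (γ s + Complex.I * (γ (s + r) - γ s)) =
      (γ u - (γ s + Complex.I * r * τ s)) - Complex.I * (γ (s + r) - γ s - r * τ s) := by ring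
  rw [e]
  have n1 := norm_sub_norm_le (γ u - (γ s + Complex.I * r * τ s))
    (Complex.I * (γ (s + r) - γ s - r * τ s))
  rw [norm_mul, Complex.norm_I, one_mul] at n1
  have e2 : r ^ 2 / (2 * r) = r / 2 := by field_simp
  rw [e2] at ht
  linarith

/-- **Tubes about closed curves.** (1) Let `γ` be a curve of period `L` (not necessarily simple; no
regularity is needed), `δ` a continuous function of period `L` with values between `0` and `L` and
`ε` any function. For every `s` let `D = A + i(B - A)` be one of the two other vertices of the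
square on the left of the chord from `A = γ (s)` to `B = γ (s + δ (s))`, and suppose that the
distances of `D` from the points `γ (u)` are greater than
`ε (u) + √2 ε (s) + ε (s + δ (s))`. Then every Jordan curve which runs around in the tube of radius
`ε` about `γ` contains the four vertices of a square.
(2) Let `γ` be a closed curve of length `L`, parametrised by arc length, of class `C^{1,1}` with
curvature at most `1 / r`, such that on one of its two sides the open discs of radius `r` tangent to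
`γ` contain no point of `γ`. Then every Jordan curve which runs around in the tube of radius `ε`
about `γ`, where `(4 + 2 √2) ε < r` (for example `ε = 0.146 r`), contains the four vertices of a
square. -/
theorem result :
    (∀ (L : ℝ) (γ : ℝ → ℂ) (δ ε : ℝ → ℝ), Continuous δ → (∀ s, δ (s + L) = δ s) →
      (∀ s, 0 < δ s ∧ δ s < L) →
      (∀ s u, ε u + √2 * ε s + ε (s + δ s) <
        ‖γ u - (γ s + Complex.I * (γ (s + δ s) - γ s))‖) →
      ∀ c, Jordan c → RunsAround L γ ε c → HasSquare c) ∧
    (∀ (L r ε : ℝ) (γ τ : ℝ → ℂ), 0 < L → 0 < r → (4 + 2 * √2) * ε < r →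
      (∀ s, γ (s + L) = γ s) → (∀ s, HasDerivAt γ (τ s) s) → (∀ s, ‖τ s‖ = 1) →
      (∀ s u, ‖τ s - τ u‖ ≤ |s - u| / r) →
      ((∀ s u, r ≤ ‖γ u - (γ s + Complex.I * r * τ s)‖) ∨
        (∀ s u, r ≤ ‖γ u - (γ s - Complex.I * r * τ s)‖)) →
      ∀ c, Jordan c → RunsAround L γ (fun _ => ε) c → HasSquare c) := by
  refine ⟨general, ?_⟩
  intro L r ε γ τ hL hr hε hγL hγ h1 hτ hball c hc hrun
  rcases hball with hball | hball
  · exact smooth L r ε hL hr hε γ τ hγL hγ h1 hτ hball c hc hrun
  · obtain ⟨hcc, hper, hinj⟩ := hc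
    obtain ⟨f, hf, hfL, hcl⟩ := hrun
    have J := H765R3.Peg.inj_of ⟨hcc, hper⟩ hinj
    have hc' : Jordan (fun t => c (-t)) := by
      refine ⟨hcc.comp continuous_neg, fun t => ?_, ?_⟩
      · have := hper (-(t + 1))
        show c (-(t + 1)) = c (-t)
        rw [← this, show -(t + 1) + 1 = -t by ring]
      · intro a ha b hb hab
        simp only at hab
        rcases lt_trichotomy a b with h | h | h
        · exact absurd hab.symm (J (-b) (-a) (by linarith) (by linarith [ha.1, hb.2]))
        · exact h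
        · exact absurd hab (J (-a) (-b) (by linarith) (by linarith [hb.1, ha.2]))
    have hsq := smooth L r ε hL hr hε (fun s => γ (-s)) (fun s => -τ (-s))
      (fun s => by
        have := hγL (-(s + L))
        rw [← this, show -(s + L) + L = -s by ring])
      (fun s => by
        have h0 : HasDerivAt (fun x : ℝ => -x) (-1) s := (hasDerivAt_id s).neg
        exact ((hγ (-s)).scomp s h0).congr_deriv (by simp))
      (fun s => by rw [norm_neg, h1])
      (fun s u => by
        have := hτ (-s) (-u)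
        rw [show -τ (-s) - -τ (-u) = -(τ (-s) - τ (-u)) by ring, norm_neg]
        rwa [show -s - -u = -(s - u) by ring, abs_neg] at this)
      (fun s u => by
        have := hball (-s) (-u)
        rwa [show γ (-s) + Complex.I * r * -τ (-s) = γ (-s) - Complex.I * r * τ (-s) by ring])
      (fun t => c (-t)) hc'
      ⟨fun t => -f (-t), (hf.comp continuous_neg).neg, fun t => by
        have := hfL (-(t + 1))
        rw [show -(t + 1) + 1 = -t by ring] at this
        show -f (-(t + 1)) = -f (-t) + L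
        linarith, fun t => by
        have := hcl (-t)
        show ‖c (-t) - γ (-(-f (-t)))‖ ≤ ε
        rw [neg_neg]
        exact this⟩
    have hrg : range (fun t => c (-t)) = range c := by
      apply Subset.antisymm
      · rintro _ ⟨t, rfl⟩; exact mem_range_self _
      · rintro _ ⟨t, rfl⟩; exact ⟨-t, by simp⟩
    unfold HasSquare at hsq ⊢
    rwa [hrg] at hsq

end Pool.Agent.Results.MP_5a3ebe_gt.VariableTubes
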